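import Mathlib
import Pool.Agent.H82.TreeC

set_option autoImplicit false

namespace Pool.Agent.Results.MP_9b1908_lc.NotMeasurable

open Set

/-- `T` is a perfect subtree of the tree of finite sequences of natural numbers: it is closed
under initial segments, nonempty, and every node has two incomparable extensions in `T`. -/
def IsPerfectTree (T : Set (List ℕ)) : Prop :=
  (∀ s t : List ℕ, s <+: t → t ∈ T → s ∈ T) ∧ T.Nonempty ∧
    ∀ s ∈ T, ∃ t ∈ T, ∃ u ∈ T, s <+: t ∧ s <+: u ∧ ¬ t <+: u ∧ ¬ u <+: t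

/-- The set `[T]` of branches of `T`: all `x` whose initial segments
`[x 0, ..., x (n-1)]` lie in `T`. -/
def Branches (T : Set (List ℕ)) : Set (ℕ → ℕ) := {x | ∀ n : ℕ, (List.range n).map x ∈ T}

/-- The tree `T_s` of nodes of `T` comparable with `s`. -/
def Below (T : Set (List ℕ)) (s : List ℕ) : Set (List ℕ) := {t ∈ T | t <+: s ∨ s <+: t}

/-- `P` is a tree forcing on the finite sequences of natural numbers. -/
def IsTreeForcing (P : Set (Set (List ℕ))) : Prop :=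
  (∀ T ∈ P, IsPerfectTree T) ∧ (univ : Set (List ℕ)) ∈ P ∧ ∀ T ∈ P, ∀ s ∈ T, Below T s ∈ P

/-- `A` is `P`-nowhere dense. -/
def NowhereDense (P : Set (Set (List ℕ))) (A : Set (ℕ → ℕ)) : Prop :=
  ∀ T ∈ P, ∃ S ∈ P, S ⊆ T ∧ Branches S ∩ A = ∅

/-- `A` lies in the sigma-ideal generated by the `P`-nowhere dense sets: it is covered by
countably many of them. -/
def InIdeal (P : Set (Set (List ℕ))) (A : Set (ℕ → ℕ)) : Prop :=
  ∃ N : ℕ → Set (ℕ → ℕ), (∀ n, NowhereDense P (N n)) ∧ A ⊆ ⋃ n, N n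

/-- `A` is `P`-measurable. -/
def IsMeasurable (P : Set (Set (List ℕ))) (A : Set (ℕ → ℕ)) : Prop :=
  ∀ T ∈ P, ∃ S ∈ P, S ⊆ T ∧ (InIdeal P (Branches S \ A) ∨ InIdeal P (Branches S ∩ A))

open Pool.Agent.H82.TreeA in
theorem result : ∃ (P : Set (Set (List ℕ))) (A : Set (ℕ → ℕ)),
    IsTreeForcing P ∧ @MeasurableSet (ℕ → ℕ) (borel (ℕ → ℕ)) A ∧ ¬ IsMeasurable P A := by
  have hB : ∀ c, Branches (tree c) = body c := fun c => Set.ext fun x => br_tree c x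
  have hN : ∀ N, NowhereDense (range tree) N → ND N := by
    intro N h c
    obtain ⟨_, ⟨c', rfl⟩, h1, h2⟩ := h _ ⟨c, rfl⟩
    rw [hB] at h2
    exact ⟨c', tree_sub.1 h1, fun x hx hn => (h2.subset ⟨hx, hn⟩ : x ∈ (∅ : Set _))⟩
  refine ⟨range tree, A, ⟨?_, tree_univ, ?_⟩, A_borel, fun h => ?_⟩
  · rintro _ ⟨c, rfl⟩
    exact ⟨fun s t => tree_down, tree_ne c, fun s hs => tree_split hs⟩
  · rintro _ ⟨c, rfl⟩ s hs
    exact tree_loc hs
  · obtain ⟨_, ⟨S, rfl⟩, -, ⟨N, h1, h2⟩ | ⟨N, h1, h2⟩⟩ := h _ tree_univ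
    · obtain ⟨x, a, b, c⟩ := one N (fun t => hN _ (h1 t)) S
      obtain ⟨t, ht⟩ := mem_iUnion.1 (h2 ⟨by rw [hB]; exact a, b⟩)
      exact c t ht
    · obtain ⟨x, a, b, c⟩ := two N (fun t => hN _ (h1 t)) S
      obtain ⟨t, ht⟩ := mem_iUnion.1 (h2 ⟨by rw [hB]; exact a, b⟩)
      exact c t ht

end Pool.Agent.Results.MP_9b1908_lc.NotMeasurable
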